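import Pool.Agent.MP_856573_co.H74.Bas

/-! The barycentric subdivision of a triangulation is a triangulation. -/

namespace Pool.Agent.MP_856573_co.H74

open Set
open Pool.Agent.MP_31805c_co.H47 (Mac Z2)
open Pool.Agent.MP_31805c_co.H93 (Conn)

namespace YAux

variable {V : Type} [DecidableEq V] {G : SimpleGraph V} {D : Finset V} {F : Finset (Finset V)}

/-- A flag: vertex, edge, face. -/
structure Fg (F : Finset (Finset V)) (a e f : Finset V) : Prop where
  c1 : a.card = 1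
  c2 : e.card = 2
  c3 : f.card = 3
  hf : f ∈ F
  ae : a ⊆ e
  ef : e ⊆ f

theorem card3 (h : Tri G D F) {f : Finset V} (hf : f ∈ F) : f.card = 3 :=
  (h.face f hf).2.card_eq

theorem adj_of (h : Tri G D F) {f : Finset V} (hf : f ∈ F) {u v : V} (hu : u ∈ f) (hv : v ∈ f)
    (huv : u ≠ v) : G.Adj u v :=
  (h.face f hf).2.isClique hu hv huv

theorem mem_cx {x : Finset V} : x ∈ Cx F ↔ ∃ f ∈ F, x ⊆ f ∧ x.Nonempty := by
  simp only [Cx, Finset.mem_biUnion, Finset.mem_erase, Finset.mem_powerset,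
    Finset.nonempty_iff_ne_empty]
  exact ⟨fun ⟨f, h1, h2, h3⟩ => ⟨f, h1, h3, h2⟩, fun ⟨f, h1, h2, h3⟩ => ⟨f, h1, h3, h2⟩⟩

theorem fg_mk (h : Tri G D F) {f : Finset V} (hf : f ∈ F) {u v : V} (hu : u ∈ f) (hv : v ∈ f)
    (huv : u ≠ v) : Fg F {u} {u, v} f :=
  ⟨Finset.card_singleton u, Finset.card_pair huv, card3 h hf, hf, by simp, by
    intro x hx
    rcases Finset.mem_insert.1 hx with rfl | hx
    · exact hu
    · rwa [Finset.mem_singleton.1 hx]⟩

theorem mem_fl (h : Tri G D F) {φ : Finset (Finset V)} :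
    φ ∈ Fl F ↔ ∃ a e f, Fg F a e f ∧ φ = {a, e, f} := by
  simp only [Fl, Finset.mem_biUnion, Finset.mem_image, Finset.mem_offDiag]
  constructor
  · rintro ⟨f, hf, ⟨u, v⟩, ⟨hu, hv, huv⟩, rfl⟩
    exact ⟨_, _, _, fg_mk h hf hu hv huv, rfl⟩
  · rintro ⟨a, e, f, hg, rfl⟩
    obtain ⟨u, rfl⟩ := Finset.card_eq_one.1 hg.c1
    obtain ⟨x, y, hxy, rfl⟩ := Finset.card_eq_two.1 hg.c2
    have hx : x ∈ f := hg.ef (by simp)
    have hy : y ∈ f := hg.ef (by simp)
    have hu := hg.ae (Finset.mem_singleton_self u)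
    rcases Finset.mem_insert.1 hu with rfl | hu
    · exact ⟨f, hg.hf, (u, y), ⟨hx, hy, hxy⟩, rfl⟩
    · obtain rfl := Finset.mem_singleton.1 hu
      exact ⟨f, hg.hf, (u, x), ⟨hy, hx, hxy.symm⟩, by rw [Finset.pair_comm x u]⟩

theorem Fg.fl (h : Tri G D F) {a e f : Finset V} (hg : Fg F a e f) :
    ({a, e, f} : Finset (Finset V)) ∈ Fl F := (mem_fl h).2 ⟨a, e, f, hg, rfl⟩

theorem Fg.mem {a e f x : Finset V} (hg : Fg F a e f) (hx : x ∈ ({a, e, f} : Finset (Finset V))) :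
    (x.card = 1 ∧ x = a) ∨ (x.card = 2 ∧ x = e) ∨ (x.card = 3 ∧ x = f) := by
  simp only [Finset.mem_insert, Finset.mem_singleton] at hx
  rcases hx with rfl | rfl | rfl
  exacts [Or.inl ⟨hg.c1, rfl⟩, Or.inr (Or.inl ⟨hg.c2, rfl⟩), Or.inr (Or.inr ⟨hg.c3, rfl⟩)]

theorem Fg.eq1 {a e f x : Finset V} (hg : Fg F a e f)
    (hx : x ∈ ({a, e, f} : Finset (Finset V))) (hc : x.card = 1) : x = a := by
  rcases hg.mem hx with h | h | h
  · exact h.2
  all_goals omega

theorem Fg.eq2 {a e f x : Finset V} (hg : Fg F a e f)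
    (hx : x ∈ ({a, e, f} : Finset (Finset V))) (hc : x.card = 2) : x = e := by
  rcases hg.mem hx with h | h | h
  · omega
  · exact h.2
  · omega

theorem Fg.eq3 {a e f x : Finset V} (hg : Fg F a e f)
    (hx : x ∈ ({a, e, f} : Finset (Finset V))) (hc : x.card = 3) : x = f := by
  rcases hg.mem hx with h | h | h
  · omega
  · omega
  · exact h.2

theorem Fg.ne12 {a e f : Finset V} (hg : Fg F a e f) : a ≠ e := fun h => by
  have h1 := hg.c1
  have h2 := hg.c2
  rw [h] at h1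
  omega

theorem Fg.ne13 {a e f : Finset V} (hg : Fg F a e f) : a ≠ f := fun h => by
  have h1 := hg.c1
  have h2 := hg.c3
  rw [h] at h1
  omega

theorem Fg.ne23 {a e f : Finset V} (hg : Fg F a e f) : e ≠ f := fun h => by
  have h1 := hg.c2
  have h2 := hg.c3
  rw [h] at h1
  omega

theorem Fg.cx1 {a e f : Finset V} (hg : Fg F a e f) : a ∈ Cx F :=
  mem_cx.2 ⟨f, hg.hf, hg.ae.trans hg.ef, Finset.card_pos.1 (by rw [hg.c1]; omega)⟩

theorem Fg.cx2 {a e f : Finset V} (hg : Fg F a e f) : e ∈ Cx F :=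
  mem_cx.2 ⟨f, hg.hf, hg.ef, Finset.card_pos.1 (by rw [hg.c2]; omega)⟩

theorem Fg.cx3 {a e f : Finset V} (hg : Fg F a e f) : f ∈ Cx F :=
  mem_cx.2 ⟨f, hg.hf, Finset.Subset.refl f, Finset.card_pos.1 (by rw [hg.c3]; omega)⟩

theorem Fg.inj {a e f a' e' f' : Finset V} (hg : Fg F a e f) (hg' : Fg F a' e' f')
    (h : ({a, e, f} : Finset (Finset V)) = {a', e', f'}) : a = a' ∧ e = e' ∧ f = f' :=
  ⟨hg'.eq1 (h ▸ by simp) hg.c1, hg'.eq2 (h ▸ by simp) hg.c2, hg'.eq3 (h ▸ by simp) hg.c3⟩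

theorem yadj {x y : Finset V} (hx : x ∈ Cx F) (hy : y ∈ Cx F) (h : x ⊆ y) (hne : x ≠ y) :
    (Yg F).Adj x y := ⟨hx, hy, Or.inl (Finset.ssubset_iff_subset_ne.2 ⟨h, hne⟩)⟩

theorem cx_card (h : Tri G D F) {x : Finset V} (hx : x ∈ Cx F) :
    1 ≤ x.card ∧ x.card ≤ 3 ∧ (x.card = 3 → x ∈ F) := by
  obtain ⟨f, hf, h1, h2⟩ := mem_cx.1 hx
  have h3 := card3 h hf
  refine ⟨Finset.card_pos.2 h2, h3 ▸ Finset.card_le_card h1, fun h4 => ?_⟩
  rwa [Finset.eq_of_subset_of_card_le h1 (by omega)]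

theorem face (h : Tri G D F) : ∀ φ ∈ Fl F, T3 (Yg F) (Cx F) φ := by
  intro φ hφ
  obtain ⟨a, e, f, hg, rfl⟩ := (mem_fl h).1 hφ
  refine ⟨fun x hx => ?_, SimpleGraph.is3Clique_triple_iff.2
    ⟨yadj hg.cx1 hg.cx2 hg.ae hg.ne12, yadj hg.cx1 hg.cx3 (hg.ae.trans hg.ef) hg.ne13,
      yadj hg.cx2 hg.cx3 hg.ef hg.ne23⟩⟩
  rcases hg.mem hx with h | h | h <;> rw [h.2]
  exacts [hg.cx1, hg.cx2, hg.cx3]

/-- Two different flags that are all the flags through `x` and `y`. -/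
theorem two_of (h : Tri G D F) {x y a e f a' e' f' : Finset V} (hg : Fg F a e f)
    (hg' : Fg F a' e' f') (hne : ¬ (a = a' ∧ e = e' ∧ f = f'))
    (h1 : x ∈ ({a, e, f} : Finset (Finset V)) ∧ y ∈ ({a, e, f} : Finset (Finset V)))
    (h2 : x ∈ ({a', e', f'} : Finset (Finset V)) ∧ y ∈ ({a', e', f'} : Finset (Finset V)))
    (hall : ∀ b c d, Fg F b c d → x ∈ ({b, c, d} : Finset (Finset V)) →
      y ∈ ({b, c, d} : Finset (Finset V)) → (b = a ∧ c = e ∧ d = f) ∨ (b = a' ∧ c = e' ∧ d = f')) :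
    ((Fl F).filter fun φ => x ∈ φ ∧ y ∈ φ).card = 2 := by
  refine Finset.card_eq_two.2 ⟨{a, e, f}, {a', e', f'}, fun hh => hne (hg.inj hg' hh), ?_⟩
  ext φ
  rw [Finset.mem_filter, Finset.mem_insert, Finset.mem_singleton]
  constructor
  · rintro ⟨hφ, hx, hy⟩
    obtain ⟨b, c, d, hb, rfl⟩ := (mem_fl h).1 hφ
    rcases hall b c d hb hx hy with ⟨rfl, rfl, rfl⟩ | ⟨rfl, rfl, rfl⟩
    exacts [Or.inl rfl, Or.inr rfl]
  · rintro (rfl | rfl)
    exacts [⟨hg.fl h, h1⟩, ⟨hg'.fl h, h2⟩]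

theorem two_lt (h : Tri G D F) {x y : Finset V} (hx : x ∈ Cx F) (hy : y ∈ Cx F) (hxy : x ⊂ y) :
    ((Fl F).filter fun φ => x ∈ φ ∧ y ∈ φ).card = 2 := by
  have hlt := Finset.card_lt_card hxy
  obtain ⟨x1, x3, -⟩ := cx_card h hx
  obtain ⟨y1, y3, yF⟩ := cx_card h hy
  have hsub : x ⊆ y := hxy.1
  by_cases hy2 : y.card = 2
  · have hx1 : x.card = 1 := by omega
    obtain ⟨u, v, huv, rfl⟩ := Finset.card_eq_two.1 hy2
    obtain ⟨g, hg, hsg, -⟩ := mem_cx.1 hy
    have hu : u ∈ g := hsg (by simp)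
    have hv : v ∈ g := hsg (by simp)
    obtain ⟨f, f', hff, hF⟩ := Finset.card_eq_two.1
      (h.two u ((h.face g hg).1 hu) v ((h.face g hg).1 hv) (adj_of h hg hu hv huv))
    have key : ∀ d, (d ∈ F ∧ ({u, v} : Finset V) ⊆ d) ↔ d = f ∨ d = f' := fun d => by
      rw [← Finset.mem_singleton (a := f'), ← Finset.mem_insert, ← hF, Finset.mem_filter]
      simp [Finset.insert_subset_iff]
    have k1 := (key f).2 (Or.inl rfl)
    have k2 := (key f').2 (Or.inr rfl)
    refine two_of h ⟨hx1, hy2, card3 h k1.1, k1.1, hsub, k1.2⟩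
      ⟨hx1, hy2, card3 h k2.1, k2.1, hsub, k2.2⟩ (fun hh => hff hh.2.2) (by simp) (by simp)
      fun b c d hb h1 h2 => ?_
    have e1 := hb.eq1 h1 hx1
    have e2 := hb.eq2 h2 hy2
    rcases (key d).1 ⟨hb.hf, e2 ▸ hb.ef⟩ with h3 | h3
    exacts [Or.inl ⟨e1.symm, e2.symm, h3⟩, Or.inr ⟨e1.symm, e2.symm, h3⟩]
  have hy3 : y.card = 3 := by omega
  have hyF := yF hy3
  by_cases hx2 : x.card = 2
  · obtain ⟨u, v, huv, rfl⟩ := Finset.card_eq_two.1 hx2
    refine two_of h ⟨Finset.card_singleton u, hx2, hy3, hyF, by simp, hsub⟩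
      ⟨Finset.card_singleton v, hx2, hy3, hyF, by simp, hsub⟩
      (fun hh => huv (Finset.singleton_injective hh.1)) (by simp) (by simp)
      fun b c d hb h1 h2 => ?_
    have e2 := hb.eq2 h1 hx2
    have e3 := hb.eq3 h2 hy3
    obtain ⟨w, rfl⟩ := Finset.card_eq_one.1 hb.c1
    have hw : w ∈ ({u, v} : Finset V) := e2 ▸ hb.ae (Finset.mem_singleton_self w)
    rcases Finset.mem_insert.1 hw with rfl | hw
    · exact Or.inl ⟨rfl, e2.symm, e3.symm⟩
    · exact Or.inr ⟨by rw [Finset.mem_singleton.1 hw], e2.symm, e3.symm⟩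
  · have hx1 : x.card = 1 := by omega
    obtain ⟨u, rfl⟩ := Finset.card_eq_one.1 hx1
    have hu : u ∈ y := hsub (Finset.mem_singleton_self u)
    have hc : (y.erase u).card = 2 := by rw [Finset.card_erase_of_mem hu, hy3]
    obtain ⟨v, w, hvw, hy'⟩ := Finset.card_eq_two.1 hc
    have hv : v ∈ y.erase u := hy' ▸ by simp
    have hw : w ∈ y.erase u := hy' ▸ by simp
    rw [Finset.mem_erase] at hv hw
    refine two_of h (fg_mk h hyF hu hv.2 hv.1.symm) (fg_mk h hyF hu hw.2 hw.1.symm)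
      (fun hh => ?_) (by simp) (by simp) fun b c d hb h1 h2 => ?_
    · have : v ∈ ({u, w} : Finset V) := hh.2.1 ▸ by simp
      simp only [Finset.mem_insert, Finset.mem_singleton] at this
      rcases this with h3 | h3
      exacts [hv.1 h3, hvw h3]
    · have e1 := hb.eq1 h1 hx1
      have e3 := hb.eq3 h2 hy3
      have huc : u ∈ c := hb.ae (e1 ▸ Finset.mem_singleton_self u)
      have hc1 : (c.erase u).card = 1 := by rw [Finset.card_erase_of_mem huc, hb.c2]
      obtain ⟨z, hz⟩ := Finset.card_eq_one.1 hc1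
      have hcz : c = {u, z} := by
        rw [← Finset.insert_erase huc, hz]
      have hz' : z ∈ c.erase u := hz ▸ Finset.mem_singleton_self z
      have hzy : z ∈ y.erase u := Finset.erase_subset_erase u (e3 ▸ hb.ef) hz'
      rw [hy'] at hzy
      rcases Finset.mem_insert.1 hzy with rfl | hzy
      · exact Or.inl ⟨e1.symm, hcz, e3.symm⟩
      · exact Or.inr ⟨e1.symm, by rw [hcz, Finset.mem_singleton.1 hzy], e3.symm⟩

theorem lc (h : Tri G D F) (t : Finset V) (X : Set (Finset (Finset V)))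
    (hX : ∀ φ ∈ X, ∀ φ' ∈ Fl F, φ ∈ Fl F → t ∈ φ → t ∈ φ' → (∃ w, w ≠ t ∧ w ∈ φ ∧ w ∈ φ') →
      φ' ∈ X) :
    ∀ φ ∈ Fl F, ∀ φ' ∈ Fl F, t ∈ φ → t ∈ φ' → φ ∈ X → φ' ∈ X := by
  intro φ hφ φ' hφ' ht ht' hmem
  obtain ⟨a, e, f, hg, rfl⟩ := (mem_fl h).1 hφ
  obtain ⟨a', e', f', hg', rfl⟩ := (mem_fl h).1 hφ'
  have mv : ∀ {b c d b' c' d' : Finset V} (w : Finset V), Fg F b c d → Fg F b' c' d' →
      ({b, c, d} : Finset (Finset V)) ∈ X → t ∈ ({b, c, d} : Finset (Finset V)) →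
      t ∈ ({b', c', d'} : Finset (Finset V)) → w ≠ t → w ∈ ({b, c, d} : Finset (Finset V)) →
      w ∈ ({b', c', d'} : Finset (Finset V)) → ({b', c', d'} : Finset (Finset V)) ∈ X :=
    fun w h1 h2 h3 h4 h5 h6 h7 h8 => hX _ h3 _ (h2.fl h) (h1.fl h) h4 h5 ⟨w, h6, h7, h8⟩
  rcases hg.mem ht with ⟨hc, rfl⟩ | ⟨hc, rfl⟩ | ⟨hc, rfl⟩
  · obtain rfl := hg'.eq1 ht' hc
    obtain ⟨v, rfl⟩ := Finset.card_eq_one.1 hc
    have hv : v ∈ f := hg.ef (hg.ae (Finset.mem_singleton_self v))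
    have hv' : v ∈ f' := hg'.ef (hg'.ae (Finset.mem_singleton_self v))
    have := h.lc v {d | ∃ c, Fg F {v} c d ∧ ({{v}, c, d} : Finset (Finset V)) ∈ X} (by
      rintro d ⟨c, hb, hm⟩ d' hd' hd h1 h2 ⟨w, hw, h3, h4⟩
      have g1 := fg_mk h hd h1 h3 hw.symm
      have g2 := fg_mk h hd' h2 h4 hw.symm
      exact ⟨_, g2, mv {v, w} g1 g2 (mv d hb g1 hm (by simp) (by simp) hb.ne13.symm (by simp)
        (by simp)) (by simp) (by simp) g1.ne12.symm (by simp) (by simp)⟩)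
      f hg.hf f' hg'.hf hv hv' ⟨e, hg, hmem⟩
    obtain ⟨c, hb, hm⟩ := this
    exact mv f' hb hg' hm (by simp) (by simp) hb.ne13.symm (by simp) (by simp)
  · obtain rfl := hg'.eq2 ht' hc
    have g1 : Fg F a t f' := ⟨hg.c1, hc, hg'.c3, hg'.hf, hg.ae, hg'.ef⟩
    exact mv f' g1 hg' (mv a hg g1 hmem (by simp) (by simp) hg.ne12 (by simp) (by simp))
      (by simp) (by simp) g1.ne23.symm (by simp) (by simp)
  · obtain rfl := hg'.eq3 ht' hc
    have hne : (e ∩ e').Nonempty := by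
      rw [← Finset.card_pos]
      have h1 := Finset.card_union_add_card_inter e e'
      have h2 := Finset.card_le_card (Finset.union_subset hg.ef hg'.ef)
      have h3 := hg.c2
      have h4 := hg'.c2
      omega
    obtain ⟨c, hc'⟩ := hne
    rw [Finset.mem_inter] at hc'
    have g1 : Fg F {c} e t := ⟨Finset.card_singleton c, hg.c2, hc, hg.hf, by simp [hc'.1], hg.ef⟩
    have g2 : Fg F {c} e' t :=
      ⟨Finset.card_singleton c, hg'.c2, hc, hg.hf, by simp [hc'.2], hg'.ef⟩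
    have m1 := mv e hg g1 hmem (by simp) (by simp) hg.ne23 (by simp) (by simp)
    have m2 := mv {c} g1 g2 m1 (by simp) (by simp) g1.ne13 (by simp) (by simp)
    exact mv e' g2 hg' m2 (by simp) (by simp) g2.ne23 (by simp) (by simp)

theorem conn_sub {x y : Finset V} (hx : x ∈ Cx F) (hy : y ∈ Cx F) (h : x ⊆ y) :
    Conn (Yg F) (Cx F : Set (Finset V)) x y := by
  by_cases e : x = y
  · rw [e]
    exact Conn.refl _ _
  · exact Conn.adj (yadj hx hy h e) hx hy

theorem face_cx (h : Tri G D F) {f : Finset V} (hf : f ∈ F) : f ∈ Cx F :=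
  mem_cx.2 ⟨f, hf, Finset.Subset.refl f, Finset.card_pos.1 (by rw [card3 h hf]; omega)⟩

theorem z2_add (x : Z2) : x + x = 0 := CharTwo.add_self_eq_zero x

theorem span (h : Tri G D F) (a : Sym2 (Finset V) → Z2)
    (ha : ∀ x y z, ({x, y, z} : Finset (Finset V)) ∈ Fl F → a s(x, y) + a s(x, z) + a s(y, z) = 0) :
    ∃ p : Finset V → Z2, ∀ x ∈ Cx F, ∀ y ∈ Cx F, (Yg F).Adj x y → a s(x, y) = p x + p y := by
  classical
  let a' : Sym2 V → Z2 := Sym2.lift ⟨fun u v => a s({u}, {u, v}) + a s({v}, {u, v}), fun u v => by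
    simp only [Finset.pair_comm v u]
    exact add_comm _ _⟩
  have ha' : ∀ u v, a' s(u, v) = a s({u}, {u, v}) + a s({v}, {u, v}) := fun _ _ => rfl
  have hf : ∀ f ∈ F, ∀ u ∈ f, ∀ v ∈ f, u ≠ v → a' s(u, v) = a s({u}, f) + a s({v}, f) := by
    intro f hf u hu v hv huv
    have h1 := ha _ _ _ ((fg_mk h hf hu hv huv).fl h)
    have h2 := ha _ _ _ ((fg_mk h hf hv hu huv.symm).fl h)
    rw [Finset.pair_comm v u] at h2
    rw [ha']
    have h3 := z2_add (a s({u, v}, f))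
    have h4 := z2_add (a s({u}, f))
    have h5 := z2_add (a s({v}, f))
    linear_combination h1 + h2 - h3 - h4 - h5
  obtain ⟨p, hp⟩ := h.span a' fun u v w hm => by
    have hc := card3 h hm
    have huv : u ≠ v := by
      rintro rfl
      have := Finset.card_le_two (a := u) (b := w)
      rw [Finset.insert_eq_of_mem (by simp)] at hc
      omega
    have huw : u ≠ w := by
      rintro rfl
      have := Finset.card_le_two (a := v) (b := u)
      rw [Finset.insert_eq_of_mem (by simp)] at hc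
      omega
    have hvw : v ≠ w := by
      rintro rfl
      have := Finset.card_le_two (a := u) (b := v)
      rw [Finset.insert_eq_of_mem (a := v) (by simp)] at hc
      omega
    rw [hf _ hm u (by simp) v (by simp) huv, hf _ hm u (by simp) w (by simp) huw,
      hf _ hm v (by simp) w (by simp) hvw]
    linear_combination z2_add (a s({u}, {u, v, w})) + z2_add (a s({v}, {u, v, w})) +
      z2_add (a s({w}, {u, v, w}))
  let b : V → Finset V → Z2 := fun u x => p u + if x = {u} then 0 else a s({u}, x)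
  have hb : ∀ x ∈ Cx F, ∀ u ∈ x, ∀ v ∈ x, b u x = b v x := by
    intro x hx u hu v hv
    by_cases huv : u = v
    · rw [huv]
    have n1 : x ≠ {u} := fun e => huv (Finset.mem_singleton.1 (e ▸ hv)).symm
    have n2 : x ≠ {v} := fun e => huv (Finset.mem_singleton.1 (e ▸ hu))
    obtain ⟨g, hg, hxg, -⟩ := mem_cx.1 hx
    have h1 := hp u ((h.face g hg).1 (hxg hu)) v ((h.face g hg).1 (hxg hv))
      (adj_of h hg (hxg hu) (hxg hv) huv)
    have h2 : a' s(u, v) = a s({u}, x) + a s({v}, x) := by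
      obtain ⟨-, c3, cF⟩ := cx_card h hx
      by_cases c : x.card = 3
      · exact hf x (cF c) u hu v hv huv
      · have : ({u, v} : Finset V) = x := Finset.eq_of_subset_of_card_le
          (by simp [Finset.insert_subset_iff, hu, hv]) (by rw [Finset.card_pair huv]; omega)
        rw [ha', this]
    simp only [b, if_neg n1, if_neg n2]
    linear_combination (-1 : Z2) * h1 + h2 + z2_add (a s({u}, x)) - z2_add (p v)
  let P : Finset V → Z2 := fun x => if hx : x.Nonempty then b hx.choose x else 0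
  have hP : ∀ x ∈ Cx F, ∀ u ∈ x, P x = b u x := by
    intro x hx u hu
    have hn : x.Nonempty := ⟨u, hu⟩
    simp only [P, dif_pos hn]
    exact hb x hx _ hn.choose_spec u hu
  have key : ∀ x ∈ Cx F, ∀ y ∈ Cx F, x ⊂ y → a s(x, y) = P x + P y := by
    intro x hx y hy hxy
    obtain ⟨x1, -, -⟩ := cx_card h hx
    obtain ⟨-, y3, yF⟩ := cx_card h hy
    have hlt := Finset.card_lt_card hxy
    obtain ⟨u, hu⟩ := Finset.card_pos.1 x1
    have n2 : y ≠ {u} := fun e => by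
      rw [e, Finset.card_singleton] at hlt
      omega
    rw [hP x hx u hu, hP y hy u (hxy.1 hu)]
    by_cases n1 : x = {u}
    · simp only [b, if_pos n1, if_neg n2]
      rw [n1]
      linear_combination (-1 : Z2) * z2_add (p u)
    · have x2 : x.card = 2 := by
        by_contra hh
        have : x.card = 1 := by omega
        obtain ⟨w, rfl⟩ := Finset.card_eq_one.1 this
        exact n1 (by rw [Finset.mem_singleton.1 hu])
      have y3' : y.card = 3 := by omega
      have g : Fg F {u} x y := ⟨Finset.card_singleton u, x2, y3', yF y3', by simp [hu], hxy.1⟩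
      have h1 := ha _ _ _ (g.fl h)
      simp only [b, if_neg n1, if_neg n2]
      linear_combination h1 - z2_add (p u) - z2_add (a s({u}, x)) - z2_add (a s({u}, y))
  refine ⟨P, fun x hx y hy hxy => ?_⟩
  rcases hxy.2.2 with h1 | h1
  · exact key x hx y hy h1
  · rw [Sym2.eq_swap, add_comm]
    exact key y hy x hx h1

end YAux

open YAux in
theorem ytri (tb : StmtTB) : StmtY := by
  intro V _ _ G D F h
  refine ⟨face h, fun x hx y hy hxy => ?_, lc h, fun x hx y hy => ?_, ?_, span h⟩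
  · rcases hxy.2.2 with h1 | h1
    · exact two_lt h hx hy h1
    · simp only [and_comm (a := x ∈ _)]
      exact two_lt h hy hx h1
  · obtain ⟨f, hf, h1, -⟩ := mem_cx.1 hx
    obtain ⟨f', hf', h2, -⟩ := mem_cx.1 hy
    have := tb.dc V G D F h {g | Conn (Yg F) (Cx F : Set (Finset V)) x g} (by
      rintro g hg g' hg' hgF ⟨u, v, -, hu, -, hu', -⟩
      have hc : ({u} : Finset V) ∈ Cx F := mem_cx.2 ⟨g, hgF, by simp [hu], by simp⟩
      exact Conn.trans hg ((conn_sub hc (face_cx h hgF) (by simp [hu])).symm.trans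
        (conn_sub hc (face_cx h hg') (by simp [hu'])))) f hf f' hf' (conn_sub hx (face_cx h hf) h1)
    exact Conn.trans this (conn_sub hy (face_cx h hf') h2).symm
  · obtain ⟨v, hv⟩ := Finset.card_pos.1 (show 0 < D.card by have := h.four; omega)
    obtain ⟨f, hf⟩ := Finset.card_pos.1
      (show 0 < (F.filter fun f => v ∈ f).card by have := (tb.deg V G D F h v hv).1; omega)
    have hfF := (Finset.mem_filter.1 hf).1
    have hs : f.powerset.erase ∅ ⊆ Cx F := Finset.subset_biUnion_of_mem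
      (fun f : Finset V => f.powerset.erase ∅) hfF
    have := Finset.card_le_card hs
    rw [Finset.card_erase_of_mem (Finset.empty_mem_powerset f), Finset.card_powerset,
      card3 h hfF] at this
    omega

end Pool.Agent.MP_856573_co.H74
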